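import Pool.Agent.helper30.KBR.Ellipsoid

/-!
# Weighted second moments of an ellipsoid (module KM)
-/

noncomputable section

namespace KBR

open Set MeasureTheory
open scoped ContDiff RealInnerProductSpace

variable {n : ℕ}

namespace MomK

open Polynomial in
theorem coeff_quad_pow (A B C' : ℝ) (m : ℕ) :
    ((C A + C B * X + C C' * X ^ 2 : ℝ[X]) ^ m).coeff 0 = A ^ m ∧
    ((C A + C B * X + C C' * X ^ 2 : ℝ[X]) ^ (m + 1)).coeff 1 = (m + 1) * A ^ m * B ∧
    ((C A + C B * X + C C' * X ^ 2 : ℝ[X]) ^ (m + 2)).coeff 2 =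
      (m + 2) * A ^ (m + 1) * C' + (m + 2) * (m + 1) / 2 * A ^ m * B ^ 2 := by
  set p : ℝ[X] := C A + C B * X + C C' * X ^ 2 with hp
  have c0 : p.coeff 0 = A := by simp [hp]
  have c1 : p.coeff 1 = B := by simp [hp, coeff_X_pow]
  have c2 : p.coeff 2 = C' := by simp [hp, coeff_X_pow]
  have h0 : ∀ m : ℕ, (p ^ m).coeff 0 = A ^ m := by
    intro m
    induction m with
    | zero => simp
    | succ m ih => rw [pow_succ, mul_coeff_zero, ih, c0, pow_succ]
  have h1 : ∀ m : ℕ, (p ^ (m + 1)).coeff 1 = (m + 1) * A ^ m * B := by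
    intro m
    induction m with
    | zero => simp [c1]
    | succ m ih =>
      rw [pow_succ, mul_coeff_one, ih, h0, c1, c0]
      push_cast; ring
  have h2 : ∀ q : ℝ[X], (q * p).coeff 2 = q.coeff 0 * C' + q.coeff 1 * B + q.coeff 2 * A := by
    intro q
    rw [coeff_mul]
    rw [Finset.Nat.sum_antidiagonal_eq_sum_range_succ_mk]
    simp [Finset.sum_range_succ, c0, c1, c2]
  refine ⟨h0 m, h1 m, ?_⟩
  induction m with
  | zero =>
    rw [pow_succ, h2]
    simp only [zero_add, pow_one, c0, c1, c2]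
    push_cast; ring
  | succ m ih =>
    rw [pow_succ, h2, ih, h0, h1]
    push_cast; ring

/-- power moments of the unit ball -/
def Phi (m : ℕ) (u : E n) : ℝ := ∫ q in Metric.closedBall (0 : E n) 1, ⟪q, u⟫ ^ (2 * m)

theorem Phi_isometry (m : ℕ) (e : E n ≃ₗᵢ[ℝ] E n) (u : E n) : Phi m (e u) = Phi m u := by
  unfold Phi
  have h := e.measurePreserving
  have h2 := h.setIntegral_preimage_emb e.toHomeomorph.measurableEmbedding
    (fun q : E n => ⟪q, e u⟫ ^ (2 * m)) (Metric.closedBall (0 : E n) 1)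
  rw [← h2, e.preimage_closedBall]
  simp only [map_zero, e.inner_map_map]

theorem Phi_eq_of_norm_eq (m : ℕ) (u v : E n) (h : ‖u‖ = ‖v‖) : Phi m u = Phi m v := by
  have := Submodule.reflection_sub h
  rw [← this, Phi_isometry]

theorem Phi_smul (m : ℕ) (a : ℝ) (u : E n) : Phi m (a • u) = a ^ (2 * m) * Phi m u := by
  unfold Phi
  rw [← integral_const_mul]
  refine integral_congr_ae (Filter.Eventually.of_forall fun q => ?_)
  simp only [inner_smul_right]; ring

theorem Phi_eq (hn : 0 < n) (m : ℕ) : ∃ c : ℝ, 0 < c ∧ ∀ u : E n, Phi m u = c * ⟪u, u⟫ ^ m := by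
  set e : E n := EuclideanSpace.single ⟨0, hn⟩ 1 with he
  have hen : ‖e‖ = 1 := by simp [he]
  refine ⟨Phi m e, ?_, fun u => ?_⟩
  · unfold Phi
    have hnn : ∀ q : E n, 0 ≤ ⟪q, e⟫ ^ (2 * m) := fun q => by
      rw [pow_mul]; positivity
    have hint : IntegrableOn (fun q : E n => ⟪q, e⟫ ^ (2 * m)) (Metric.closedBall (0 : E n) 1) := by
      refine ContinuousOn.integrableOn_compact (isCompact_closedBall _ _) ?_
      fun_prop
    rw [integral_pos_iff_support_of_nonneg (fun q => hnn q) hint]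
    have hop : IsOpen ({q : E n | ⟪q, e⟫ ≠ 0} ∩ Metric.ball 0 1) := by
      refine IsOpen.inter ?_ Metric.isOpen_ball
      exact isOpen_ne_fun (by fun_prop) continuous_const
    have hne : ({q : E n | ⟪q, e⟫ ≠ 0} ∩ Metric.ball 0 1).Nonempty := by
      refine ⟨(1 / 2 : ℝ) • e, ?_, ?_⟩
      · simp [inner_smul_left, hen]
      · rw [mem_ball_zero_iff, norm_smul, hen]; norm_num
    have hpos := hop.measure_pos (volume : Measure (E n)) hne
    rw [Measure.restrict_apply' Metric.isClosed_closedBall.measurableSet]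
    refine hpos.trans_le (measure_mono ?_)
    rintro q ⟨h1, h2⟩
    refine ⟨?_, Metric.ball_subset_closedBall h2⟩
    rw [Function.mem_support]
    exact pow_ne_zero _ h1
  · have h1 : ‖u‖ = ‖(‖u‖ • e : E n)‖ := by rw [norm_smul, hen]; simp
    rw [Phi_eq_of_norm_eq m _ _ h1, Phi_smul, real_inner_self_eq_norm_sq, ← pow_mul, mul_comm]

/-- weighted second moment -/
def M2 (N : ℕ) (Y a b : E n) : ℝ :=
  ∫ q in Metric.closedBall (0 : E n) 1, ⟪q, Y⟫ ^ (2 * (N + 1)) * (⟪q, a⟫ * ⟪q, b⟫)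

theorem M2_int (N : ℕ) (Y a b : E n) :
    IntegrableOn (fun q : E n => ⟪q, Y⟫ ^ (2 * (N + 1)) * (⟪q, a⟫ * ⟪q, b⟫))
      (Metric.closedBall (0 : E n) 1) := by
  refine ContinuousOn.integrableOn_compact (isCompact_closedBall _ _) ?_
  fun_prop

theorem M2_add_left (N : ℕ) (Y u u' v : E n) : M2 N Y (u + u') v = M2 N Y u v + M2 N Y u' v := by
  unfold M2
  rw [← integral_add (M2_int N Y u v) (M2_int N Y u' v)]
  refine integral_congr_ae (Filter.Eventually.of_forall fun q => ?_)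
  simp only [inner_add_right]; ring

theorem M2_comm (N : ℕ) (Y u v : E n) : M2 N Y u v = M2 N Y v u := by
  unfold M2
  refine integral_congr_ae (Filter.Eventually.of_forall fun q => ?_)
  simp only; ring

open Polynomial in
theorem M2_diag (N : ℕ) (c : ℝ) (hc : ∀ u : E n, Phi (N + 2) u = c * ⟪u, u⟫ ^ (N + 2))
    (Y a : E n) : M2 N Y a a = c / (2 * N + 3) * (⟪Y, Y⟫ ^ N *
      (2 * (N + 1) * ⟪Y, a⟫ ^ 2 + ⟪Y, Y⟫ * ⟪a, a⟫)) := by
  set I : ℕ → ℝ := fun j => ∫ q in Metric.closedBall (0 : E n) 1,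
    ⟪q, a⟫ ^ j * ⟪q, Y⟫ ^ (2 * (N + 2) - j) with hI
  set L : ℝ[X] := ∑ j ∈ Finset.range (2 * (N + 2) + 1),
    C (I j * ((2 * (N + 2)).choose j : ℝ)) * X ^ j with hL
  set Rp : ℝ[X] := C c * (C ⟪Y, Y⟫ + C (2 * ⟪Y, a⟫) * X + C ⟪a, a⟫ * X ^ 2) ^ (N + 2) with hR
  have hLR : L = Rp := by
    refine Polynomial.funext fun t => ?_
    have h1 := hc (Y + t • a)
    have h2 : Phi (N + 2) (Y + t • a) = L.eval t := by
      unfold Phi
      have h3 : ∀ q : E n, ⟪q, Y + t • a⟫ ^ (2 * (N + 2)) =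
          ∑ j ∈ Finset.range (2 * (N + 2) + 1), t ^ j * ((2 * (N + 2)).choose j : ℝ) *
            (⟪q, a⟫ ^ j * ⟪q, Y⟫ ^ (2 * (N + 2) - j)) := by
        intro q
        rw [inner_add_right, inner_smul_right, add_comm, add_pow]
        refine Finset.sum_congr rfl fun j _ => ?_
        rw [mul_pow]; ring
      simp_rw [h3]
      rw [integral_finsetSum]
      · rw [hL, eval_finsetSum]
        refine Finset.sum_congr rfl fun j _ => ?_
        rw [integral_const_mul]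
        simp only [eval_mul, eval_C, eval_pow, eval_X, hI]
        ring
      · intro j _
        have : IntegrableOn (fun q : E n => t ^ j * ((2 * (N + 2)).choose j : ℝ) *
            (⟪q, a⟫ ^ j * ⟪q, Y⟫ ^ (2 * (N + 2) - j))) (Metric.closedBall (0 : E n) 1) := by
          refine ContinuousOn.integrableOn_compact (isCompact_closedBall _ _) ?_
          fun_prop
        exact this
    rw [← h2, h1, hR]
    simp only [eval_mul, eval_C, eval_pow, eval_X, eval_add]
    congr 2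
    rw [inner_add_left, inner_add_right, inner_add_right, inner_smul_left, inner_smul_right,
      inner_smul_right, inner_smul_left, real_inner_comm Y a]
    simp only [conj_trivial]
    ring
  have h4 : L.coeff 2 = I 2 * ((2 * (N + 2)).choose 2 : ℝ) := by
    rw [hL, finsetSum_coeff]
    simp only [coeff_C_mul, coeff_X_pow]
    rw [Finset.sum_eq_single 2]
    · simp
    · intro b _ hb; simp [hb.symm]
    · intro h; exfalso; apply h; simp
  have h5 : Rp.coeff 2 = c * ((N + 2) * ⟪Y, Y⟫ ^ (N + 1) * ⟪a, a⟫ +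
      (N + 2) * (N + 1) / 2 * ⟪Y, Y⟫ ^ N * (2 * ⟪Y, a⟫) ^ 2) := by
    rw [hR, coeff_C_mul, (coeff_quad_pow _ _ _ N).2.2]
  have h6 : I 2 = M2 N Y a a := by
    simp only [hI, M2]
    refine integral_congr_ae (Filter.Eventually.of_forall fun q => ?_)
    have : 2 * (N + 2) - 2 = 2 * (N + 1) := by omega
    simp only [this]; ring
  rw [hLR, h5, h6] at h4
  have h7 : ((2 * (N + 2)).choose 2 : ℝ) = (N + 2) * (2 * N + 3) := by
    rw [Nat.cast_choose_two]
    push_cast; ring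
  rw [h7] at h4
  have h8 : (N + 2 : ℝ) ≠ 0 := by positivity
  have h9 : (2 * N + 3 : ℝ) ≠ 0 := by positivity
  rw [div_mul_eq_mul_div, eq_div_iff h9]
  apply mul_left_cancel₀ h8
  linear_combination -h4

theorem M2_eq (N : ℕ) (c : ℝ) (hc : ∀ u : E n, Phi (N + 2) u = c * ⟪u, u⟫ ^ (N + 2))
    (Y a b : E n) : M2 N Y a b = c / (2 * N + 3) * (⟪Y, Y⟫ ^ N *
      (2 * (N + 1) * (⟪Y, a⟫ * ⟪Y, b⟫) + ⟪Y, Y⟫ * ⟪a, b⟫)) := by
  have h1 := M2_diag N c hc Y (a + b)
  rw [M2_add_left, M2_comm N Y a, M2_comm N Y b (a + b), M2_add_left, M2_add_left,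
    M2_diag N c hc Y a, M2_diag N c hc Y b, M2_comm N Y b a, inner_add_add_self,
    real_inner_comm a b, inner_add_right] at h1
  linear_combination h1 / 2

theorem M2_trace (N : ℕ) (c : ℝ) (hc : ∀ u : E n, Phi (N + 2) u = c * ⟪u, u⟫ ^ (N + 2))
    (Y : E n) (S : E n →L[ℝ] E n) :
    ∫ q in Metric.closedBall (0 : E n) 1, ⟪q, Y⟫ ^ (2 * (N + 1)) * ⟪S q, q⟫ =
      c / (2 * N + 3) * (⟪Y, Y⟫ ^ N * (2 * (N + 1) * ⟪S Y, Y⟫ +
        ⟪Y, Y⟫ * LinearMap.trace ℝ (E n) (S : E n →ₗ[ℝ] E n))) := by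
  set b := EuclideanSpace.basisFun (Fin n) ℝ with hb
  have h1 : ∀ q : E n, ⟪S q, q⟫ = ∑ i, ⟪q, ContinuousLinearMap.adjoint S (b i)⟫ * ⟪q, b i⟫ := by
    intro q
    rw [← b.sum_inner_mul_inner (S q) q]
    refine Finset.sum_congr rfl fun i _ => ?_
    rw [ContinuousLinearMap.adjoint_inner_right, real_inner_comm q (b i)]
  have h2 : ∀ q : E n, ⟪q, Y⟫ ^ (2 * (N + 1)) * ⟪S q, q⟫ =
      ∑ i, ⟪q, Y⟫ ^ (2 * (N + 1)) *
        (⟪q, ContinuousLinearMap.adjoint S (b i)⟫ * ⟪q, b i⟫) := by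
    intro q
    rw [h1, Finset.mul_sum]
  simp_rw [h2]
  rw [integral_finsetSum _ fun i _ => M2_int _ _ _ _]
  have h3 : ∀ i, ∫ q in Metric.closedBall (0 : E n) 1, ⟪q, Y⟫ ^ (2 * (N + 1)) *
        (⟪q, ContinuousLinearMap.adjoint S (b i)⟫ * ⟪q, b i⟫) =
      c / (2 * N + 3) * (⟪Y, Y⟫ ^ N *
      (2 * (N + 1) * (⟪Y, ContinuousLinearMap.adjoint S (b i)⟫ * ⟪Y, b i⟫) +
        ⟪Y, Y⟫ * ⟪ContinuousLinearMap.adjoint S (b i), b i⟫)) := fun i => M2_eq N c hc Y _ _
  simp_rw [h3]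
  rw [← Finset.mul_sum, ← Finset.mul_sum, Finset.sum_add_distrib, ← Finset.mul_sum,
    ← Finset.mul_sum, ← h1 Y, LinearMap.trace_eq_sum_inner _ b]
  congr 4
  refine Finset.sum_congr rfl fun i _ => ?_
  rw [ContinuousLinearMap.adjoint_inner_left]
  rfl

end MomK

open MomK in
/-- MODULE KM. Weighted moment formula over ellipsoids. -/
theorem moment (N : ℕ) : ∃ c : ℝ, 0 < c ∧ ∀ (G B : E n →L[ℝ] E n) (X : E n),
    (∀ u v, ⟪G u, v⟫ = ⟪G v, u⟫) → (∀ v, v ≠ 0 → 0 < ⟪G v, v⟫) →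
    ∫ p in {p : E n | ⟪G.inverse p, p⟫ ≤ 1},
        ⟪p, X⟫ ^ (2 * (N + 1)) * ⟪B (G.inverse p), G.inverse p⟫ =
      c * (Real.sqrt G.det * ⟪G X, X⟫ ^ N * (2 * (N + 1) * ⟪B X, X⟫ +
        ⟪G X, X⟫ * LinearMap.trace ℝ (E n)
          ((G.inverse.comp B : E n →L[ℝ] E n) : E n →ₗ[ℝ] E n))) := by
  rcases Nat.eq_zero_or_pos n with rfl | hn
  · refine ⟨1, one_pos, fun G B X _ _ => ?_⟩
    have hX : X = 0 := Subsingleton.elim _ _
    subst hX
    simp
  obtain ⟨c, hc0, hc⟩ := Phi_eq hn (N + 2)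
  refine ⟨c / (2 * N + 3), by positivity, fun G B X hs hp => ?_⟩
  obtain ⟨R, R', hRs, hRs', hRR, hR1, hR2⟩ := diag_sqrt G hs hp
  have a1 : ∀ x, R (R' x) = x := fun x => by
    have := congrArg (fun T : E n →L[ℝ] E n => T x) hR1; simpa using this
  have a2 : ∀ x, R' (R x) = x := fun x => by
    have := congrArg (fun T : E n →L[ℝ] E n => T x) hR2; simpa using this
  have hGi : G.inverse = R'.comp R' := by
    refine ContinuousLinearMap.inverse_eq ?_ ?_
    · ext1 x; rw [← hRR]; simp [a1]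
    · ext1 x; rw [← hRR]; simp [a2]
  have himg : {p : E n | ⟪G.inverse p, p⟫ ≤ 1} = R '' Metric.closedBall 0 1 := by
    ext p
    simp only [mem_ofPred_eq, mem_image, mem_closedBall_zero_iff]
    constructor
    · intro h
      refine ⟨R' p, ?_, a1 p⟩
      rw [hGi] at h
      have h2 : ⟪R' (R' p), p⟫ = ‖R' p‖ ^ 2 := by
        rw [hRs', real_inner_self_eq_norm_sq]
      simp only [ContinuousLinearMap.comp_apply] at h
      rw [h2] at h
      nlinarith [norm_nonneg (R' p)]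
    · rintro ⟨q, hq, rfl⟩
      rw [hGi]
      have h2 : ⟪R' (R' (R q)), R q⟫ = ‖q‖ ^ 2 := by
        rw [hRs', a2, real_inner_self_eq_norm_sq]
      simp only [ContinuousLinearMap.comp_apply]
      rw [h2]
      nlinarith [norm_nonneg q]
  have hdet : |R.det| = Real.sqrt G.det := by
    have : G.det = R.det * R.det := by
      rw [← hRR]
      simp only [ContinuousLinearMap.det, ContinuousLinearMap.toLinearMap_comp, LinearMap.det_comp]
    rw [this, Real.sqrt_mul_self_eq_abs]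
  have hinj : InjOn R (Metric.closedBall 0 1) := fun x _ y _ h => by
    rw [← a2 x, ← a2 y, h]
  rw [himg, integral_image_eq_integral_abs_det_fderiv_smul volume
    Metric.isClosed_closedBall.measurableSet
    (fun x _ => R.hasFDerivAt.hasFDerivWithinAt) hinj]
  have e1 : ∀ q, |R.det| • (⟪R q, X⟫ ^ (2 * (N + 1)) *
      ⟪B (G.inverse (R q)), G.inverse (R q)⟫) =
      Real.sqrt G.det * (⟪q, R X⟫ ^ (2 * (N + 1)) * ⟪(R'.comp (B.comp R')) q, q⟫) := by
    intro q
    rw [hdet, hGi]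
    simp only [ContinuousLinearMap.comp_apply, a2, smul_eq_mul]
    rw [hRs' (B (R' q)) q, real_inner_comm (B (R' q)), hRs q X, real_inner_comm q (R X)]
  simp_rw [e1]
  rw [integral_const_mul, M2_trace N c hc, hGi]
  have e2 : LinearMap.trace ℝ (E n) ((R'.comp (B.comp R') : E n →L[ℝ] E n) : E n →ₗ[ℝ] E n) =
      LinearMap.trace ℝ (E n) (((R'.comp R').comp B : E n →L[ℝ] E n) : E n →ₗ[ℝ] E n) := by
    simp only [ContinuousLinearMap.toLinearMap_comp]
    rw [← LinearMap.comp_assoc, LinearMap.trace_comp_comm', ← LinearMap.comp_assoc]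
  have e3 : ⟪R X, R X⟫ = ⟪G X, X⟫ := by
    rw [← hRR, ContinuousLinearMap.comp_apply, hRs, real_inner_comm]
  have e4 : ⟪(R'.comp (B.comp R')) (R X), R X⟫ = ⟪B X, X⟫ := by
    simp only [ContinuousLinearMap.comp_apply, a2]
    rw [hRs', a2, real_inner_comm]
  rw [e2, e3, e4]
  ring

end KBR
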