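import Pool.Agent.helper25.KBR.D2

set_option maxSynthPendingDepth 3
noncomputable section

namespace KBR

open Set MeasureTheory Metric
open scoped ContDiff RealInnerProductSpace NNReal Topology

variable {n : ℕ}

/-- `Y = √det G · (⟨P, K⟩ V + 2 P K V)` with `P = O⁻¹`, `V = P a` -/
def Yf (G O K : E n → E n →L[ℝ] E n) (a : E n → E n) (y : E n) : E n :=
  (D2.hsL n (D2.Wf G O y) (K y)) • (Ring.inverse (O y) (a y)) +
    (2 : ℝ) • D2.Wf G O y (K y (Ring.inverse (O y) (a y)))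

namespace D2

/-- trace in the standard basis is cyclic -/
theorem tr_comm (A B : E n →L[ℝ] E n) :
    ∑ k, ⟪A (B (e n k)), e n k⟫ = ∑ k, ⟪B (A (e n k)), e n k⟫ := by
  have h1 := trace_eq (A * B)
  have h2 := trace_eq (B * A)
  have h3 : LinearMap.trace ℝ (E n) ((A * B : E n →L[ℝ] E n) : E n →ₗ[ℝ] E n) =
      LinearMap.trace ℝ (E n) ((B * A : E n →L[ℝ] E n) : E n →ₗ[ℝ] E n) := by
    have e1 : ((A * B : E n →L[ℝ] E n) : E n →ₗ[ℝ] E n) =
      (A : E n →ₗ[ℝ] E n) * (B : E n →ₗ[ℝ] E n) := rfl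
    have e2 : ((B * A : E n →L[ℝ] E n) : E n →ₗ[ℝ] E n) =
      (B : E n →ₗ[ℝ] E n) * (A : E n →ₗ[ℝ] E n) := rfl
    rw [e1, e2, LinearMap.trace_mul_comm]
  rw [h1, h2] at h3
  exact h3

/-- moving an antisymmetric operator -/
theorem skew_swap (Y X : E n →L[ℝ] E n) (hX : ∀ u v, ⟪X u, v⟫ = -⟪X v, u⟫) :
    ∑ k, ⟪Y (X (e n k)), e n k⟫ = - ∑ k, ⟪Y (e n k), X (e n k)⟫ := by
  rw [tr_comm, ← Finset.sum_neg_distrib]
  refine Finset.sum_congr rfl fun k _ => ?_
  rw [hX, real_inner_comm]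

theorem skew_half (Y X Z : E n →L[ℝ] E n) (hX : ∀ u v, ⟪X u, v⟫ = -⟪X v, u⟫)
    (hZ : ∀ u v, ⟪Y u, v⟫ - ⟪Y v, u⟫ = ⟪Z u, v⟫) :
    2 * ∑ k, ⟪Y (e n k), X (e n k)⟫ = ∑ k, ⟪Z (e n k), X (e n k)⟫ := by
  have h1 := skew_swap Y X hX
  have h2 : ∑ k, ⟪Z (e n k), X (e n k)⟫ =
      ∑ k, ⟪Y (e n k), X (e n k)⟫ - ∑ k, ⟪Y (X (e n k)), e n k⟫ := by
    rw [← Finset.sum_sub_distrib]
    exact Finset.sum_congr rfl fun k _ => (hZ _ _).symm
  rw [h2, h1]; ring

theorem hasFDerivAt_inv (O : E n → E n →L[ℝ] E n) (x : E n)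
    (hO : ContDiffAt ℝ 1 O x) (hU : IsUnit (O x)) :
    HasFDerivAt (fun y => Ring.inverse (O y))
      ((-ContinuousLinearMap.mulLeftRight ℝ (E n →L[ℝ] E n) (Ring.inverse (O x))
        (Ring.inverse (O x))).comp (fderiv ℝ O x)) x := by
  have hOd : HasFDerivAt O (fderiv ℝ O x) x := (hO.differentiableAt (by simp)).hasFDerivAt
  obtain ⟨u, hu⟩ := hU
  have h := hasFDerivAt_ringInverse (𝕜 := ℝ) u
  rw [hu] at h
  have hPu : Ring.inverse (O x) = ↑u⁻¹ := by rw [← hu, Ring.inverse_unit]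
  rw [← hPu] at h
  exact h.comp x hOd

theorem differentiableAt_sqrt_det (G : E n → E n →L[ℝ] E n) (x : E n)
    (hG : ContDiffAt ℝ 1 G x) (hpos : 0 < (G x).det) :
    DifferentiableAt ℝ (fun y => Real.sqrt (G y).det) x := by
  have h1 : ContDiffAt ℝ 1 (fun y => (G y).det) x :=
    (contDiff_det (m := 1)).contDiffAt.comp x hG
  have h2 : ContDiffAt ℝ 1 (fun y => Real.sqrt (G y).det) x := h1.sqrt hpos.ne'
  exact h2.differentiableAt (by simp)

theorem fderiv_sqrt_det (G O : E n → E n →L[ℝ] E n) (x : E n) (hG : ContDiffAt ℝ 1 G x)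
    (hO : ContDiffAt ℝ 1 O x) (hpos : 0 < (G x).det) (hU : IsUnit (O x))
    (hdet : ∀ᶠ y in 𝓝 x, 0 < (G y).det ∧ (G y).det ^ 2 = (O y).det ^ 2) (u : E n) :
    fderiv ℝ (fun y => Real.sqrt (G y).det) x u =
      Real.sqrt (G x).det / 2 * ∑ k, ⟪Ring.inverse (O x) (fderiv ℝ O x u (e n k)), e n k⟫ := by
  set P := Ring.inverse (O x) with hP
  set O' := fderiv ℝ O x with hO'
  have hOd : HasFDerivAt O O' x := (hO.differentiableAt (by simp)).hasFDerivAt
  set s : E n → ℝ := fun y => Real.sqrt (G y).det with hs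
  set s' := fderiv ℝ s x with hs'
  have hsd : HasFDerivAt s s' x := (differentiableAt_sqrt_det G x hG hpos).hasFDerivAt
  have hsx : 0 < s x := Real.sqrt_pos.2 hpos
  have hD : HasFDerivAt (fun A : E n →L[ℝ] E n => A.det)
      (fderiv ℝ (fun A : E n →L[ℝ] E n => A.det) (O x)) (O x) :=
    ((contDiff_det (m := 1)).contDiffAt.differentiableAt (by simp)).hasFDerivAt
  have hD2 : HasFDerivAt (fun y => (O y).det)
      ((fderiv ℝ (fun A : E n →L[ℝ] E n => A.det) (O x)).comp O') x := hD.comp x hOd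
  have hD3 := hD2.pow 2
  have hD4 := hsd.pow 4
  have heq : (s ^ 4) =ᶠ[𝓝 x] ((fun y => (O y).det) ^ 2) := by
    filter_upwards [hdet] with y hy
    simp only [Pi.pow_apply, hs]
    rw [← hy.2]
    have := Real.sq_sqrt hy.1.le
    nlinarith [this]
  have h5 := (hD3.congr_of_eventuallyEq heq).unique hD4
  have h6 := congrArg (fun L : E n →L[ℝ] ℝ => L u) h5
  have hx4 : (s x) ^ 4 = (O x).det ^ 2 := by
    have := heq.self_of_nhds
    simpa using this
  simp only [smul_apply, ContinuousLinearMap.comp_apply, fderiv_det _ hU] at h6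
  norm_num at h6
  rw [← hP] at h6
  set T := ∑ k, ⟪P (O' u (e n k)), e n k⟫ with hT
  have h7 : 4 * (s x)^3 * s' u = 2 * (s x)^4 * T := by
    rw [hx4]; linarith
  have h8 : (s x)^3 ≠ 0 := by positivity
  have h9 : (s x)^3 * (4 * s' u) = (s x)^3 * (2 * s x * T) := by ring_nf; ring_nf at h7; linarith
  have h10 := mul_left_cancel₀ h8 h9
  show s' u = s x / 2 * T
  linarith

end D2

open D2 in
/-- MODULE PL1. -/
theorem PL1 (G O K : E n → E n →L[ℝ] E n) (a : E n → E n) (x : E n)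
    (hG : ContDiffAt ℝ 1 G x) (hO : ContDiffAt ℝ 1 O x) (hK : ContDiffAt ℝ 1 K x)
    (ha : ContDiffAt ℝ 1 a x) (hpos : 0 < (G x).det) (hU : IsUnit (O x))
    (hdet : ∀ᶠ y in 𝓝 x, 0 < (G y).det ∧ (G y).det ^ 2 = (O y).det ^ 2)
    (hOs : ∀ u v, ⟪O x u, v⟫ = -⟪O x v, u⟫)
    (hOs' : ∀ u v w, ⟪fderiv ℝ O x u v, w⟫ = -⟪fderiv ℝ O x u w, v⟫)
    (hc : ∀ u v w, ⟪fderiv ℝ O x u v, w⟫ + ⟪fderiv ℝ O x v w, u⟫ + ⟪fderiv ℝ O x w u, v⟫ = 0)
    (hKs : ∀ u v, ⟪K x u, v⟫ = -⟪K x v, u⟫)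
    (hKs' : ∀ u v w, ⟪fderiv ℝ K x u v, w⟫ = -⟪fderiv ℝ K x u w, v⟫)
    (had : ∀ u v, ⟪fderiv ℝ a x u, v⟫ - ⟪fderiv ℝ a x v, u⟫ = ⟪O x u, v⟫) :
    ∑ k, ⟪fderiv ℝ (Yf G O K a) x (D2.e n k), D2.e n k⟫ =
      ((n : ℝ) - 2) / 2 * D2.hsL n (D2.Wf G O x) (K x) +
      Real.sqrt (G x).det * ∑ k, (
        ⟪fderiv ℝ K x (D2.e n k) (Ring.inverse (O x) (D2.e n k)), Ring.inverse (O x) (a x)⟫ +
        ⟪fderiv ℝ K x (Ring.inverse (O x) (D2.e n k)) (Ring.inverse (O x) (a x)), D2.e n k⟫ +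
        ⟪fderiv ℝ K x (Ring.inverse (O x) (a x)) (D2.e n k), Ring.inverse (O x) (D2.e n k)⟫) := by
  have hdiv := div_Wf G O x hG hO hpos hU hdet hOs hOs' hc
  have hPs := inverse_antisymm (O x) hU hOs
  have hsqrt := fderiv_sqrt_det G O x hG hO hpos hU hdet
  have hinv := hasFDerivAt_inv O x hO hU
  have hsd := (differentiableAt_sqrt_det G x hG hpos).hasFDerivAt
  have hW : HasFDerivAt (Wf G O) (fderiv ℝ (Wf G O) x) x :=
    ((contDiffAt_Wf G O x hG hO hpos hU).differentiableAt (by simp)).hasFDerivAt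
  have hWu : ∀ u, fderiv ℝ (Wf G O) x u =
      (fderiv ℝ (fun y => Real.sqrt (G y).det) x u) • Ring.inverse (O x) -
      Real.sqrt (G x).det • (Ring.inverse (O x) * fderiv ℝ O x u * Ring.inverse (O x)) := by
    intro u
    have h1 : HasFDerivAt (Wf G O) _ x := hsd.smul hinv
    rw [h1.fderiv]
    simp only [add_apply, smul_apply, ContinuousLinearMap.comp_apply, neg_apply,
      ContinuousLinearMap.mulLeftRight_apply, ContinuousLinearMap.smulRight_apply, smul_neg]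
    abel
  have hKd : HasFDerivAt K (fderiv ℝ K x) x := (hK.differentiableAt (by simp)).hasFDerivAt
  have had' : HasFDerivAt a (fderiv ℝ a x) x := (ha.differentiableAt (by simp)).hasFDerivAt
  have hOP : ∀ w, O x (Ring.inverse (O x) w) = w := fun w =>
    congrArg (fun L : E n →L[ℝ] E n => L w) (Ring.mul_inverse_cancel (O x) hU)
  have hPO : ∀ w, Ring.inverse (O x) (O x w) = w := fun w =>
    congrArg (fun L : E n →L[ℝ] E n => L w) (Ring.inverse_mul_cancel (O x) hU)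
  have hWx : Wf G O x = Real.sqrt (G x).det • Ring.inverse (O x) := rfl
  set s := Real.sqrt (G x).det with hs
  set s' := fderiv ℝ (fun y => Real.sqrt (G y).det) x with hs'
  set o := fderiv ℝ O x with ho
  set κ := fderiv ℝ K x with hκ
  set α := fderiv ℝ a x with hα
  set W' := fderiv ℝ (Wf G O) x with hW'
  set P := Ring.inverse (O x) with hP
  set V := P (a x) with hV
  -- derivative of V
  have hVd := hinv.clm_apply had'
  set V' := (P).comp α + (((-ContinuousLinearMap.mulLeftRight ℝ (E n →L[ℝ] E n) P P).comp o).flip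
    (a x)) with hV'
  have hV'u : ∀ u, V' u = P (α u) - P (o u V) := by
    intro u
    simp only [hV', add_apply, ContinuousLinearMap.comp_apply, ContinuousLinearMap.flip_apply,
      neg_apply, ContinuousLinearMap.mulLeftRight_apply]
    rw [sub_eq_add_neg]
    rfl
  have hVd' : HasFDerivAt (fun y => Ring.inverse (O y) (a y)) V' x := hVd
  have hKV : HasFDerivAt (fun y => K y (Ring.inverse (O y) (a y)))
      ((K x).comp V' + κ.flip V) x := hKd.clm_apply hVd'
  have hWKV : HasFDerivAt (fun y => Wf G O y (K y (Ring.inverse (O y) (a y))))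
      ((Wf G O x).comp ((K x).comp V' + κ.flip V) + W'.flip (K x V)) x := hW.clm_apply hKV
  have hf1 : HasFDerivAt (fun y => hsL n (Wf G O y)) ((hsL n).comp W') x :=
    (hsL n).hasFDerivAt.comp x hW
  have hf : HasFDerivAt (fun y => hsL n (Wf G O y) (K y))
      ((hsL n (Wf G O x)).comp κ + ((hsL n).comp W').flip (K x)) x := hf1.clm_apply hKd
  have hY : HasFDerivAt (Yf G O K a) _ x := (hf.smul hVd').add (hWKV.const_smul (2 : ℝ))
  have hYu : ∀ k, ⟪fderiv ℝ (Yf G O K a) x (e n k), e n k⟫ =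
      ⟪V, e n k⟫ * ((hsL n (Wf G O x)).comp κ + ((hsL n).comp W').flip (K x)) (e n k) +
      s * hsL n P (K x) * ⟪V' (e n k), e n k⟫ +
      2 * ⟪W' (e n k) (K x V), e n k⟫ + 2 * s * ⟪P (κ (e n k) V), e n k⟫ +
      2 * s * ⟪P (K x (V' (e n k))), e n k⟫ := by
    intro k
    rw [hY.fderiv]
    simp only [add_apply, smul_apply, ContinuousLinearMap.comp_apply,
      ContinuousLinearMap.flip_apply, ContinuousLinearMap.smulRight_apply, hWx, inner_add_left,
      real_inner_smul_left, map_smul, map_add, smul_eq_mul]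
    ring
  simp_rw [hYu]
  simp only [Finset.sum_add_distrib, ← Finset.mul_sum]
  rw [sum_lin, hdiv (K x V)]
  -- abbreviations
  set h := hsL n P (K x) with hh
  have hfirst : ((hsL n (Wf G O x)).comp κ + ((hsL n).comp W').flip (K x)) V =
      s * hsL n P (κ V) + s' V * h - s * hsL n (P * o V * P) (K x) := by
    simp only [add_apply, ContinuousLinearMap.comp_apply, ContinuousLinearMap.flip_apply]
    rw [hWu, hWx]
    simp only [map_sub, map_smul, smul_apply, sub_apply, smul_eq_mul]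
    rw [hh]; ring
  have hPP : ∀ u v, ⟪P u, v⟫ = -⟪u, P v⟫ := by
    intro u v; rw [hPs, real_inner_comm]
  have hKK : ∀ u v, ⟪K x u, v⟫ = -⟪u, K x v⟫ := by
    intro u v; rw [hKs, real_inner_comm]
  have hcy := cyc o P hOs' hPs hc V
  have hs'V : s' V = -(s / 2 * ∑ k, ⟪o V (e n k), P (e n k)⟫) := by
    rw [hsqrt V, ← mul_neg, ← Finset.sum_neg_distrib]
    congr 1
    exact Finset.sum_congr rfl fun k _ => hPP _ _
  have hα : 2 * ∑ k, ⟪α (e n k), P (e n k)⟫ = -(n : ℝ) := by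
    rw [skew_half α P (O x) hPs had]
    have : ∀ k, ⟪O x (e n k), P (e n k)⟫ = -1 := by
      intro k
      have h1 := hPP (O x (e n k)) (e n k)
      rw [hPO, e_inner_self] at h1
      linarith
    simp [this]
  have hdivV : ∑ k, ⟪V' (e n k), e n k⟫ = (n : ℝ) / 2 +
      (∑ k, ⟪o V (e n k), P (e n k)⟫) / 2 := by
    have h1 : ∑ k, ⟪V' (e n k), e n k⟫ =
        - ∑ k, ⟪α (e n k), P (e n k)⟫ + ∑ k, ⟪o (e n k) V, P (e n k)⟫ := by
      rw [← Finset.sum_neg_distrib, ← Finset.sum_add_distrib]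
      refine Finset.sum_congr rfl fun k _ => ?_
      rw [hV'u, inner_sub_left, hPP, hPP]; ring
    rw [h1]; linarith
  have hκ1 : ∑ k, ⟪P (κ (e n k) V), e n k⟫ = - ∑ k, ⟪κ (e n k) V, P (e n k)⟫ := by
    rw [← Finset.sum_neg_distrib]
    exact Finset.sum_congr rfl fun k _ => hPP _ _
  have hκ2 : ∑ k, ⟪κ (P (e n k)) V, e n k⟫ = - ∑ k, ⟪κ (e n k) V, P (e n k)⟫ := by
    have := skew_swap (κ.flip V) P hPs
    simpa only [ContinuousLinearMap.flip_apply] using this
  have hκ3 : ∑ k, ⟪κ (e n k) (P (e n k)), V⟫ = - ∑ k, ⟪κ (e n k) V, P (e n k)⟫ := by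
    rw [← Finset.sum_neg_distrib]
    exact Finset.sum_congr rfl fun k _ => hKs' _ _ _
  have hκ4 : hsL n P (κ V) = ∑ k, ⟪κ V (e n k), P (e n k)⟫ := by
    rw [hsL_apply]
    exact Finset.sum_congr rfl fun k _ => real_inner_comm _ _
  -- the last term
  have hX : ∀ u v, ⟪(P * K x * P) u, v⟫ = -⟪(P * K x * P) v, u⟫ := by
    intro u v
    show ⟪P (K x (P u)), v⟫ = -⟪P (K x (P v)), u⟫
    rw [hPP, hKK, hPP, real_inner_comm u]; ring
  have hZ : ∀ u v, ⟪((O x).comp V') u, v⟫ - ⟪((O x).comp V') v, u⟫ = ⟪(O x - o V) u, v⟫ := by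
    intro u v
    have e1 : ∀ u, ((O x).comp V') u = α u - o u V := by
      intro u
      rw [ContinuousLinearMap.comp_apply, hV'u, map_sub, hOP, hOP]
    rw [e1, e1, inner_sub_left, inner_sub_left, sub_apply, inner_sub_left, ← had u v]
    have h1 := hc u v V
    have h2 := hOs' u v V
    linarith
  have hlast0 := skew_half ((O x).comp V') (P * K x * P) (O x - o V) hX hZ
  have hl1 : ∑ k, ⟪P (K x (V' (e n k))), e n k⟫ =
      - ∑ k, ⟪((O x).comp V') (e n k), (P * K x * P) (e n k)⟫ := by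
    rw [← Finset.sum_neg_distrib]
    refine Finset.sum_congr rfl fun k _ => ?_
    have h1 := hX (O x (V' (e n k))) (e n k)
    have h2 : (P * K x * P) (O x (V' (e n k))) = P (K x (V' (e n k))) := by
      show P (K x (P (O x (V' (e n k))))) = _
      rw [hPO]
    rw [h2] at h1
    rw [h1, real_inner_comm]
    rfl
  have hl2 : ∑ k, ⟪(O x - o V) (e n k), (P * K x * P) (e n k)⟫ =
      h - hsL n (P * o V * P) (K x) := by
    have e1 : ∑ k, ⟪(O x - o V) (e n k), (P * K x * P) (e n k)⟫ =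
        ∑ k, ⟪O x (e n k), (P * K x * P) (e n k)⟫ -
        ∑ k, ⟪o V (e n k), (P * K x * P) (e n k)⟫ := by
      rw [← Finset.sum_sub_distrib]
      refine Finset.sum_congr rfl fun k _ => ?_
      rw [sub_apply, inner_sub_left]
    have e2 : ∑ k, ⟪O x (e n k), (P * K x * P) (e n k)⟫ = h := by
      rw [hh, hsL_apply]
      refine Finset.sum_congr rfl fun k _ => ?_
      show ⟪O x (e n k), P (K x (P (e n k)))⟫ = _
      have h1 := hPP (O x (e n k)) (K x (P (e n k)))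
      rw [hPO] at h1
      have h2 := hKK (P (e n k)) (e n k)
      rw [real_inner_comm] at h2
      linarith
    have e3 : ∑ k, ⟪o V (e n k), (P * K x * P) (e n k)⟫ = hsL n (P * o V * P) (K x) := by
      have f1 : ∑ k, ⟪o V (e n k), (P * K x * P) (e n k)⟫ =
          - ∑ k, ⟪P (K x (P (o V (e n k)))), e n k⟫ := by
        rw [← Finset.sum_neg_distrib]
        refine Finset.sum_congr rfl fun k _ => ?_
        have h1 := hX (o V (e n k)) (e n k)
        have h3 : (P * K x * P) (o V (e n k)) = P (K x (P (o V (e n k)))) := rfl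
        rw [h3] at h1
        rw [h1, real_inner_comm, neg_neg]
      have f2 : hsL n (P * o V * P) (K x) = - ∑ k, ⟪K x (P (o V (P (e n k)))), e n k⟫ := by
        rw [hsL_apply, ← Finset.sum_neg_distrib]
        refine Finset.sum_congr rfl fun k _ => ?_
        rw [hKK, neg_neg]
        rfl
      have f3 := tr_comm P (K x * P * o V)
      have f4 : ∀ u, (K x * P * o V) u = K x (P (o V u)) := fun _ => rfl
      simp only [f4] at f3
      rw [f1, f2, f3]
    rw [e1, e2, e3]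
  have hlast : 2 * ∑ k, ⟪P (K x (V' (e n k))), e n k⟫ = hsL n (P * o V * P) (K x) - h := by
    rw [hl1, mul_neg, hlast0, hl2]; ring
  rw [hκ3, hκ2, ← hκ4, hfirst, hdivV, hκ1, hs'V, hWx, map_smul, smul_apply, ← hh, smul_eq_mul]
  linear_combination s * hlast

end KBR
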